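import Mathlib

/-!
MP_8a6a08_lc: universal computers in computation-universal cellular automata.

Q1 is answered in the negative: there are a (one-dimensional) cellular automaton and a Turing
domain `T` such that the automaton is computation-universal with respect to `T` (every partial
recursive function is even computed by a finite configuration), but no configuration, finite or
infinite, is a universal computer with respect to `T`.

The automaton runs a Turing machine for a universal partial recursive function (obtained from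
the machines of Mathlib) on the tape `[cons] p [bit1] [cons] n`, where the program `p` and the two
separators belong to the computer and the cell `-2` (letter `bit1`) and the cells `0, 1, 2, ...`
(binary digits of `n + 1`) belong to the input.  After halting, a second head erases the computer
except for the cell `-1`, where it enters the halting state.  The set `T` consists of all the
translates of inputs that avoid the cell `-1`, so `U` is the set of all cells except `-1`.  A
translate of a member of `T` outside `T` covers the cell `-1`, and only one such translate is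
disjoint from all the inputs; since moreover the halting cell must be `-1`, one configuration
together with these translates computes only finitely many total functions.
-/

set_option autoImplicit false
set_option linter.unusedVariables false
set_option linter.unusedSimpArgs false
set_option linter.unusedSectionVars false
set_option maxHeartbeats 4000000

namespace Pool.Agent.Results.MP_8a6a08_lc.NoUniversal

/-- A one-dimensional cellular automaton: finite state set `S`, quiescent state `ν`, finite
neighbourhood `N`, and a local rule mapping the all-`ν` neighbourhood to `ν`. -/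
structure CA where
  S : Type
  finS : Finite S
  ν : S
  N : Finset ℤ
  rule : (N → S) → S
  quiet : rule (fun _ => ν) = ν

namespace CA

/-- Configurations (cells are the integers). -/
abbrev Cfg (A : CA) : Type := ℤ → A.S

/-- The global map. -/
def G (A : CA) (c : A.Cfg) : A.Cfg := fun x => A.rule (fun y => c (x + y.1))

/-- The support. -/
def Supp (A : CA) (c : A.Cfg) : Set ℤ := {x | c x ≠ A.ν}

/-- Disjoint supports. -/
def Disj (A : CA) (c c' : A.Cfg) : Prop := Disjoint (A.Supp c) (A.Supp c')

open Classical in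
/-- `c ⊔ c'` (for disjoint supports). -/
noncomputable def join (A : CA) (c c' : A.Cfg) : A.Cfg :=
  fun x => if c x = A.ν then c' x else c x

/-- `c'` is a subconfiguration of `c`. -/
def Sub (A : CA) (c' c : A.Cfg) : Prop := ∀ x ∈ A.Supp c', c x = c' x

/-- Passive configurations. -/
def Passive (A : CA) (c : A.Cfg) : Prop := A.G c = c

/-- Completely passive configurations. -/
def CPassive (A : CA) (c : A.Cfg) : Prop := ∀ c', A.Sub c' c → A.Passive c'

/-- `c` passes information to `c'`. -/
def Passes (A : CA) (c c' : A.Cfg) : Prop :=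
  ∃ t : ℕ, ∃ x ∈ A.Supp (A.G^[t] c'), A.G^[t] (A.join c c') x ≠ A.G^[t] c' x

/-- The translate of `d` by `τ`. -/
def translate (A : CA) (τ : ℤ) (d : A.Cfg) : A.Cfg := fun x => d (x - τ)

open Classical in
/-- The restriction `e|_U`. -/
noncomputable def restrict (A : CA) (U : Set ℤ) (e : A.Cfg) : A.Cfg :=
  fun x => if x ∈ U then e x else A.ν

end CA

/-- `ι` is a recursive family of finite configurations: for an injective coding of the (finitely
many) states by numbers, the states of the nonnegative and of the nonpositive cells are computable,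
and there is a computable bound for the support. -/
def RecursiveFamily (A : CA) (ι : ℕ → A.Cfg) : Prop :=
  ∃ code : A.S → ℕ, Function.Injective code ∧
    Computable₂ (fun n x : ℕ => code (ι n (x : ℤ))) ∧
    Computable₂ (fun n x : ℕ => code (ι n (-(x : ℤ)))) ∧
    ∃ b : ℕ → ℕ, Computable b ∧ ∀ n x, ι n x ≠ A.ν → x.natAbs ≤ b n

/-- Turing domains. -/
structure TuringDomain (A : CA) where
  T : Set A.Cfg
  finite : ∀ f ∈ T, (A.Supp f).Finite
  ι : ℕ → A.Cfg
  mem : ∀ n, ι n ∈ T
  inj : Function.Injective ι
  recursive : RecursiveFamily A ι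
  passive : ∀ f ∈ T, A.CPassive f
  unions : ∀ (k : ℕ) (f : Fin k → A.Cfg) (τ : Fin k → ℤ), (∀ i, f i ∈ T) →
    (∀ i j, i ≠ j → A.Disj (A.translate (τ i) (f i)) (A.translate (τ j) (f j))) →
    ∀ u : A.Cfg, (∀ i, A.Sub (A.translate (τ i) (f i)) u) →
      (∀ x, (∀ i, A.translate (τ i) (f i) x = A.ν) → u x = A.ν) → A.CPassive u

/-- The region `U`, the union of the supports of the members of `T`. -/
def TuringDomain.U {A : CA} (D : TuringDomain A) : Set ℤ := {x | ∃ f ∈ D.T, x ∈ A.Supp f}

/-- The configuration `c` computes the partial function `ψ`. -/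
def Computes {A : CA} (D : TuringDomain A) (c : A.Cfg) (ψ : ℕ →. ℕ) : Prop :=
  c ∉ D.T ∧ (∀ n, (ψ n).Dom → A.Disj c (D.ι n)) ∧
    ∃ α ∈ A.Supp c, ∃ s : A.S, s ≠ A.ν ∧ ∀ n m, m ∈ ψ n → ∃ t : ℕ,
      A.G^[t] (A.join c (D.ι n)) α = s ∧
      (∀ t' < t, A.G^[t'] (A.join c (D.ι n)) α ≠ s) ∧
      ¬ A.Passes (A.restrict D.Uᶜ (A.G^[t] (A.join c (D.ι n))))
        (A.restrict D.U (A.G^[t] (A.join c (D.ι n)))) ∧
      A.restrict D.U (A.G^[t] (A.join c (D.ι n))) = D.ι m

/-- Computation-universality with respect to a Turing domain. -/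
def CompUniversal {A : CA} (D : TuringDomain A) : Prop :=
  ∀ ψ : ℕ →. ℕ, Nat.Partrec ψ → ∃ c : A.Cfg, Computes D c ψ

/-- Universal computers. -/
def UniversalComputer {A : CA} (D : TuringDomain A) (c : A.Cfg) : Prop :=
  c ∉ D.T ∧ ∀ ψ : ℕ →. ℕ, Nat.Partrec ψ → ∃ d ∈ D.T, ∃ τ : ℤ,
    A.Disj (A.translate τ d) c ∧ A.translate τ d ∉ D.T ∧
    Computes D (A.join c (A.translate τ d)) ψ

theorem mem_supp {A : CA} (c : A.Cfg) (x : ℤ) : x ∈ A.Supp c ↔ c x ≠ A.ν := Iff.rfl

theorem disj_iff {A : CA} (c c' : A.Cfg) : A.Disj c c' ↔ ∀ x, c x = A.ν ∨ c' x = A.ν := by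
  unfold CA.Disj
  rw [Set.disjoint_left]
  constructor
  · intro h x
    by_cases h1 : c x = A.ν
    · exact Or.inl h1
    · right
      by_contra h2
      exact h h1 h2
  · intro h x h1 h2
    rcases h x with h3 | h3
    · exact h1 h3
    · exact h2 h3

/-- General obstruction: if only one translate of a member of `T` outside `T` is compatible with
the inputs, and the halting cell is forced, there is no universal computer. -/
theorem no_universal {A : CA} (D : TuringDomain A) (X0 : A.Cfg)
    (hX : ∀ d ∈ D.T, ∀ τ : ℤ, A.translate τ d ∉ D.T →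
      (∀ n, A.Disj (A.translate τ d) (D.ι n)) → A.translate τ d = X0)
    (α0 : ℤ) (hU : ∀ x, x ≠ α0 → x ∈ D.U) (c : A.Cfg) : ¬ UniversalComputer D c := by
  classical
  rintro ⟨hc, hu⟩
  have := A.finS
  have hk : ∀ k : ℕ, ∃ s : A.S, ∀ n : ℕ, ∃ t : ℕ,
      A.G^[t] (A.join (A.join c X0) (D.ι n)) α0 = s ∧
      (∀ t' < t, A.G^[t'] (A.join (A.join c X0) (D.ι n)) α0 ≠ s) ∧
      A.restrict D.U (A.G^[t] (A.join (A.join c X0) (D.ι n))) = D.ι k := by
    intro k
    have hp : Nat.Partrec (fun _ : ℕ => Part.some k) :=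
      Nat.Partrec.of_primrec (Nat.Primrec.const k)
    obtain ⟨d, hd, τ, h1, h2, h3, h4, α, hα, s, hs, h5⟩ := hu _ hp
    have h6 : ∀ n, A.Disj (A.translate τ d) (D.ι n) := by
      intro n
      rw [disj_iff]
      intro x
      have h7 := (disj_iff _ _).1 (h4 n trivial) x
      rcases h7 with h7 | h7
      · left
        unfold CA.join at h7
        split at h7
        · exact h7
        · exact absurd h7 (by assumption)
      · exact Or.inr h7
    have hX0 := hX d hd τ h2 h6
    rw [hX0] at h3 h4 h5 hα
    have hα0 : α = α0 := by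
      by_contra hne
      have hαU := hU α hne
      obtain ⟨t, t1, t2, t3, t4⟩ := h5 0 k (Part.mem_some k)
      have h8 := congrFun t4 α
      unfold CA.restrict at h8
      rw [if_pos hαU, t1] at h8
      rcases (disj_iff _ _).1 (h4 k trivial) α with h9 | h9
      · exact hα h9
      · exact hs (h8.trans h9)
    subst hα0
    refine ⟨s, fun n => ?_⟩
    obtain ⟨t, t1, t2, t3, t4⟩ := h5 n k (Part.mem_some k)
    exact ⟨t, t1, t2, t4⟩
  choose s hs using hk
  obtain ⟨k, k', hne, heq⟩ := Finite.exists_ne_map_eq_of_infinite s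
  obtain ⟨t, t1, t2, t3⟩ := hs k 0
  obtain ⟨t', t1', t2', t3'⟩ := hs k' 0
  rw [← heq] at t1' t2'
  have htt : t = t' := by
    rcases lt_trichotomy t t' with h | h | h
    · exact absurd t1 (t2' t h)
    · exact h
    · exact absurd t1' (t2 t' h)
  subst htt
  exact hne (D.inj (t3.symm.trans t3'))

open Relation Turing

section part1

/-- stack alphabets. -/
abbrev G2 : PartrecToTM2.K' → Type := fun _ => PartrecToTM2.Γ'

/-- tape symbols. -/
abbrev Sym : Type := TM2to1.Γ' PartrecToTM2.K' G2

/-- labels of the stack machine. -/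
abbrev L1 : Type := TM2to1.Λ' PartrecToTM2.K' G2 PartrecToTM2.Λ' (Option PartrecToTM2.Γ')

/-- the TM1 machine. -/
noncomputable abbrev M1 : L1 → TM1.Stmt Sym L1 (Option PartrecToTM2.Γ') :=
  TM2to1.tr PartrecToTM2.tr

/-- One step of a Turing machine in absolute coordinates. -/
def astep {Q Γ : Type} (M : Q → Γ → Option (Q × TM0.Stmt Γ)) (c : Q × ℤ × (ℤ → Γ)) :
    Option (Q × ℤ × (ℤ → Γ)) :=
  (M c.1 (c.2.2 c.2.1)).map fun x =>
    match x.2 with
    | TM0.Stmt.move Dir.left => (x.1, c.2.1 - 1, c.2.2)
    | TM0.Stmt.move Dir.right => (x.1, c.2.1 + 1, c.2.2)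
    | TM0.Stmt.write a => (x.1, c.2.1, Function.update c.2.2 c.2.1 a)

/-- the stacks with `v` on the main stack. -/
def stk (v : List ℕ) : PartrecToTM2.K' → List PartrecToTM2.Γ' :=
  PartrecToTM2.K'.elim (PartrecToTM2.trList v) [] [] []

/-- make a tape symbol. -/
def mkSym (b : Bool) (g : ∀ k : PartrecToTM2.K', Option (G2 k)) : Sym := (b, g)

/-- the tape for `v`. -/
def FT (v : List ℕ) (x : ℤ) : Sym :=
  if x < 0 then default else mkSym (decide (x = 0)) (fun k => (stk v k).reverse[x.toNat]?)

theorem FT_neg (v : List ℕ) (x : ℤ) (hx : x < 0) : FT v x = default := if_pos hx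

theorem FT_nat (v : List ℕ) (n : ℕ) :
    FT v n = mkSym (decide (n = 0)) (fun k => (stk v k).reverse[n]?) := by
  have h1 : ¬ ((n : ℤ) < 0) := by omega
  have h2 : (decide ((n : ℤ) = 0)) = decide (n = 0) := by simp
  rw [FT, if_neg h1, Int.toNat_natCast, h2]

/-- statements that never change the marker. -/
def PF : TM1.Stmt Sym L1 (Option PartrecToTM2.Γ') → Prop
  | .move _ q => PF q
  | .write f q => (∀ a s, (f a s).1 = a.1) ∧ PF q
  | .load _ q => PF q
  | .branch _ q1 q2 => PF q1 ∧ PF q2
  | .goto _ => True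
  | .halt => True

theorem PF_trNormal (q : TM2.Stmt G2 PartrecToTM2.Λ' (Option PartrecToTM2.Γ')) :
    PF (TM2to1.trNormal q) := by
  induction q with
  | push k f q _ => exact trivial
  | peek k f q _ => exact trivial
  | pop k f q _ => exact trivial
  | load a q ih => exact ih
  | branch f q1 q2 ih1 ih2 => exact ⟨ih1, ih2⟩
  | goto l => exact trivial
  | halt => exact trivial

theorem PF_tr (l : L1) : PF (M1 l) := by
  cases l with
  | normal q => exact PF_trNormal _
  | go k s q =>
    refine ⟨?_, trivial⟩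
    cases s with
    | push f => exact ⟨fun a s => rfl, trivial⟩
    | peek f => exact trivial
    | pop f => exact ⟨trivial, fun a s => rfl, trivial⟩
  | ret q => exact ⟨PF_trNormal _, trivial⟩

section inst

variable [Inhabited PartrecToTM2.Λ']

theorem PF_trAux (a : Sym) (q : TM1.Stmt Sym L1 (Option PartrecToTM2.Γ')) (hq : PF q) :
    ∀ v, (∀ r, (TM1to0.trAux M1 a q v).1.1 = some r → PF r) ∧
      (∀ b, (TM1to0.trAux M1 a q v).2 = TM0.Stmt.write b → b.1 = a.1) := by
  induction q with
  | move d q ih =>
    intro v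
    refine ⟨fun r hr => ?_, fun b hb => ?_⟩
    · simp only [TM1to0.trAux, Option.some.injEq] at hr
      subst hr
      exact hq
    · simp [TM1to0.trAux] at hb
  | write f q ih =>
    intro v
    refine ⟨fun r hr => ?_, fun b hb => ?_⟩
    · simp only [TM1to0.trAux, Option.some.injEq] at hr
      subst hr
      exact hq.2
    · simp only [TM1to0.trAux, TM0.Stmt.write.injEq] at hb
      subst hb
      exact hq.1 _ _
  | load f q ih =>
    intro v
    exact ih hq _
  | branch p q1 q2 ih1 ih2 =>
    intro v
    simp only [TM1to0.trAux]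
    cases p a v
    · exact ih2 hq.2 _
    · exact ih1 hq.1 _
  | goto l =>
    intro v
    refine ⟨fun r hr => ?_, fun b hb => ?_⟩
    · simp only [TM1to0.trAux, Option.some.injEq] at hr
      subst hr
      exact PF_tr _
    · simp only [TM1to0.trAux, TM0.Stmt.write.injEq] at hb
      subst hb
      rfl
  | halt =>
    intro v
    refine ⟨fun r hr => ?_, fun b hb => ?_⟩
    · simp [TM1to0.trAux] at hr
    · simp only [TM1to0.trAux, TM0.Stmt.write.injEq] at hb
      subst hb
      rfl

end inst

/-- tape in absolute coordinates. -/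
def Rel (T : Tape Sym) (h : ℤ) (f : ℤ → Sym) : Prop := ∀ x, f x = T.nth (x - h)

theorem nth_bottom (L : ListBlank (∀ k : PartrecToTM2.K', Option (G2 k))) (v : List ℕ)
    (hL : ∀ k, L.map (proj k) = ListBlank.mk ((stk v k).map some).reverse) (x : ℤ) :
    (Tape.mk' (∅ : ListBlank Sym) (TM2to1.addBottom L)).nth x = FT v x := by
  by_cases hx : x < 0
  · rw [FT_neg v x hx]
    obtain ⟨n, rfl⟩ : ∃ n : ℕ, x = -((n : ℤ) + 1) := ⟨(-x - 1).toNat, by omega⟩
    have h1 : (-((n : ℤ) + 1)) = Int.negSucc n := by
      rw [Int.negSucc_eq]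
    rw [h1]
    show (∅ : ListBlank Sym).nth n = default
    have h2 : (∅ : ListBlank Sym) = ListBlank.mk [] := rfl
    rw [h2, ListBlank.nth_mk]
    simp
  · obtain ⟨n, rfl⟩ : ∃ n : ℕ, x = (n : ℤ) := ⟨x.toNat, by omega⟩
    rw [Tape.mk'_nth_nat, FT_nat]
    refine Prod.ext ?_ ?_
    · show ((TM2to1.addBottom L).nth n).1 = decide (n = 0)
      cases n with
      | zero => rw [ListBlank.nth_zero, TM2to1.addBottom_head_fst]; simp
      | succ n => rw [TM2to1.addBottom_nth_succ_fst]; simp
    · show ((TM2to1.addBottom L).nth n).2 = (fun k => (stk v k).reverse[n]?)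
      rw [TM2to1.addBottom_nth_snd]
      funext k
      exact TM2to1.stk_nth_val n (hL k)

theorem exists_L (v : List ℕ) : ∃ L : ListBlank (∀ k : PartrecToTM2.K', Option (G2 k)),
    ∀ k, L.map (proj k) = ListBlank.mk ((stk v k).map some).reverse := by
  refine ⟨ListBlank.mk ((PartrecToTM2.trList v).reverse.map fun a =>
    Function.update (fun _ => none) PartrecToTM2.K'.main (some a)), fun k => ?_⟩
  refine ListBlank.ext fun i => ?_
  rw [proj_map_nth, ListBlank.nth_mk, ListBlank.nth_mk, List.getI_eq_getElem?_getD,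
    List.getI_eq_getElem?_getD, List.getElem?_map, ← List.map_reverse, List.getElem?_map]
  cases k with
  | main =>
    simp only [stk, PartrecToTM2.K'.elim]
    cases (PartrecToTM2.trList v).reverse[i]? <;> simp <;> rfl
  | rev =>
    simp only [stk, PartrecToTM2.K'.elim]
    cases (PartrecToTM2.trList v).reverse[i]? <;> simp <;> rfl
  | aux =>
    simp only [stk, PartrecToTM2.K'.elim]
    cases (PartrecToTM2.trList v).reverse[i]? <;> simp <;> rfl
  | stack =>
    simp only [stk, PartrecToTM2.K'.elim]
    cases (PartrecToTM2.trList v).reverse[i]? <;> simp <;> rfl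

section inst2

variable [Inhabited PartrecToTM2.Λ']

/-- allowed states. -/
def inQ (S0 : Finset (TM1to0.Λ' M1)) (q : TM1to0.Λ' M1) : Prop :=
  q ∈ S0 ∧ ∀ r, q.1 = some r → PF r

open scoped Classical in
/-- the machine with finitely many states. -/
noncomputable def M' (S0 : Finset (TM1to0.Λ' M1)) (q : {q // inQ S0 q}) (a : Sym) :
    Option ({q // inQ S0 q} × TM0.Stmt Sym) :=
  (TM1to0.tr M1 q.1 a).bind fun x => if h : inQ S0 x.1 then some (⟨x.1, h⟩, x.2) else none

theorem M'_none {S0 : Finset (TM1to0.Λ' M1)} (q : {q // inQ S0 q}) (a : Sym)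
    (h : TM1to0.tr M1 q.1 a = none) : M' S0 q a = none := by
  rw [M', h]
  rfl

theorem M'_some {S0 : Finset (TM1to0.Λ' M1)}
    (closed : ∀ q a q' s, TM1to0.tr M1 q a = some (q', s) → q ∈ S0 → q' ∈ S0)
    (q : {q // inQ S0 q}) (a : Sym) (x : TM1to0.Λ' M1 × TM0.Stmt Sym)
    (hx : TM1to0.tr M1 q.1 a = some x) :
    ∃ h : inQ S0 x.1, M' S0 q a = some (⟨x.1, h⟩, x.2) ∧
      ∀ b, x.2 = TM0.Stmt.write b → b.1 = a.1 := by
  obtain ⟨⟨o, v⟩, hq⟩ := q
  simp only at hx
  cases o with
  | none => simp [TM1to0.tr] at hx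
  | some r =>
    have hr : PF r := hq.2 r rfl
    have h1 := PF_trAux a r hr v
    have hx' : TM1to0.trAux M1 a r v = x := by simpa [TM1to0.tr] using hx
    rw [hx'] at h1
    have hin : inQ S0 x.1 := ⟨closed _ a x.1 x.2 hx hq.1, h1.1⟩
    refine ⟨hin, ?_, h1.2⟩
    rw [M', hx]
    simp only [Option.bind_some]
    rw [dif_pos hin]

theorem sim_step {S0 : Finset (TM1to0.Λ' M1)}
    (closed : ∀ q a q' s, TM1to0.tr M1 q a = some (q', s) → q ∈ S0 → q' ∈ S0)
    (c c' : TM0.Cfg Sym (TM1to0.Λ' M1)) (hc : TM0.step (TM1to0.tr M1) c = some c')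
    (hq : inQ S0 c.q) (h : ℤ) (f : ℤ → Sym) (hr : Rel c.Tape h f) :
    ∃ (hq' : inQ S0 c'.q) (h' : ℤ) (f' : ℤ → Sym),
      astep (M' S0) (⟨c.q, hq⟩, h, f) = some (⟨c'.q, hq'⟩, h', f') ∧ Rel c'.Tape h' f' ∧
      ∀ x, (f' x).1 = (f x).1 := by
  obtain ⟨q, T⟩ := c
  have hfh : f h = T.head := by
    rw [hr h, sub_self, Tape.nth_zero]
  simp only [TM0.step] at hc
  cases hM : TM1to0.tr M1 q T.head with
  | none => simp [hM] at hc
  | some x =>
    rw [hM] at hc
    simp only [Option.map_some, Option.some.injEq] at hc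
    subst hc
    obtain ⟨hin, hM', hw⟩ := M'_some closed ⟨q, hq⟩ T.head x hM
    obtain ⟨q', s⟩ := x
    cases s with
    | move d =>
      cases d with
      | left =>
        refine ⟨hin, h - 1, f, ?_, ?_, fun x => rfl⟩
        · simp only [astep]
          rw [hfh, hM']
          rfl
        · intro x
          show f x = (T.move Dir.left).nth (x - (h - 1))
          rw [Tape.move_left_nth, hr x]
          congr 1
          ring
      | right =>
        refine ⟨hin, h + 1, f, ?_, ?_, fun x => rfl⟩
        · simp only [astep]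
          rw [hfh, hM']
          rfl
        · intro x
          show f x = (T.move Dir.right).nth (x - (h + 1))
          rw [Tape.move_right_nth, hr x]
          congr 1
          ring
    | write b =>
      refine ⟨hin, h, Function.update f h b, ?_, ?_, ?_⟩
      · simp only [astep]
        rw [hfh, hM']
        rfl
      · intro x
        show Function.update f h b x = (T.write b).nth (x - h)
        rw [Tape.write_nth]
        by_cases hx : x = h
        · subst hx
          simp
        · rw [Function.update_of_ne hx, if_neg (by omega), hr x]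
      · intro x
        by_cases hx : x = h
        · subst hx
          rw [Function.update_self, hfh]
          exact hw b rfl
        · rw [Function.update_of_ne hx]

theorem sim_reach {S0 : Finset (TM1to0.Λ' M1)}
    (closed : ∀ q a q' s, TM1to0.tr M1 q a = some (q', s) → q ∈ S0 → q' ∈ S0)
    (c c' : TM0.Cfg Sym (TM1to0.Λ' M1))
    (hc : StateTransition.Reaches (TM0.step (TM1to0.tr M1)) c c')
    (hq : inQ S0 c.q) (h : ℤ) (f : ℤ → Sym) (hr : Rel c.Tape h f) :
    ∃ (hq' : inQ S0 c'.q) (h' : ℤ) (f' : ℤ → Sym),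
      ReflTransGen (fun a b => astep (M' S0) a = some b) (⟨c.q, hq⟩, h, f)
        (⟨c'.q, hq'⟩, h', f') ∧ Rel c'.Tape h' f' ∧ ∀ x, (f' x).1 = (f x).1 := by
  induction hc with
  | refl => exact ⟨hq, h, f, ReflTransGen.refl, hr, fun x => rfl⟩
  | tail h1 h2 ih =>
    obtain ⟨hq1, h', f', e1, e2, e3⟩ := ih
    obtain ⟨hq2, h'', f'', g1, g2, g3⟩ := sim_step closed _ _ h2 hq1 h' f' e2
    exact ⟨hq2, h'', f'', ReflTransGen.tail e1 g1, g2, fun x => (g3 x).trans (e3 x)⟩

theorem exists_machine_aux (c : ToPartrec.Code) (S : Finset PartrecToTM2.Λ')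
    (hd : (default : PartrecToTM2.Λ') = PartrecToTM2.trNormal c PartrecToTM2.Cont'.halt)
    (ss : TM2.Supports PartrecToTM2.tr S) :
    ∃ (Q : Type) (_ : Finite Q) (M : Q → Sym → Option (Q × TM0.Stmt Sym)) (q0 : Q),
      ∀ v v', v' ∈ c.eval v → ∃ q',
        ReflTransGen (fun a b => astep M a = some b) (q0, 0, FT v) (q', 0, FT v') ∧
        M q' (FT v' 0) = none := by
  classical
  have ss1 := TM2to1.tr_supports PartrecToTM2.tr ss
  have ss0 := TM1to0.tr_supports M1 ss1
  set S0 := TM1to0.trStmts M1 (TM2to1.trSupp PartrecToTM2.tr S) with hS0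
  have closed : ∀ q a q' s, TM1to0.tr M1 q a = some (q', s) → q ∈ S0 → q' ∈ S0 :=
    fun q a q' s h1 h2 => by
      have := ss0.2 (Option.mem_def.2 h1) (Finset.mem_coe.2 h2)
      exact Finset.mem_coe.1 this
  have hfin : Finite {q // inQ S0 q} := by
    have h1 : {q | inQ S0 q}.Finite := (S0.finite_toSet).subset fun q hq => hq.1
    exact h1.to_subtype
  have hq0 : inQ S0 (default : TM1to0.Λ' M1) := by
    refine ⟨Finset.mem_coe.1 ss0.1, fun r hr => ?_⟩
    have h1 : (default : TM1to0.Λ' M1).1 = some (M1 default) := rfl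
    rw [h1] at hr
    simp only [Option.some.injEq] at hr
    subst hr
    exact PF_tr _
  refine ⟨{q // inQ S0 q}, hfin, M' S0, ⟨default, hq0⟩, fun v v' hv => ?_⟩
  have h1 : PartrecToTM2.halt v' ∈
      StateTransition.eval (TM2.step PartrecToTM2.tr) (PartrecToTM2.init c v) := by
    rw [PartrecToTM2.tr_eval]
    exact Part.mem_map _ hv
  obtain ⟨L, hL⟩ := exists_L v
  have h2 : TM2to1.TrCfg (PartrecToTM2.init c v)
      (⟨some (TM2to1.Λ'.normal (PartrecToTM2.trNormal c PartrecToTM2.Cont'.halt)), none,
        Tape.mk' ∅ (TM2to1.addBottom L)⟩ : TM1.Cfg Sym L1 (Option PartrecToTM2.Γ')) :=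
    TM2to1.TrCfg.mk L hL
  obtain ⟨b, hb, hbe⟩ := StateTransition.tr_eval (TM2to1.tr_respects PartrecToTM2.tr) h2 h1
  cases hb with
  | mk L' hL' =>
  obtain ⟨d, hd1, hde⟩ := StateTransition.tr_eval (TM1to0.tr_respects M1) rfl hbe
  subst hd1
  obtain ⟨hr1, hr2⟩ := StateTransition.mem_eval.1 hde
  have hqq : (TM1to0.trCfg M1 (⟨some (TM2to1.Λ'.normal
      (PartrecToTM2.trNormal c PartrecToTM2.Cont'.halt)), none,
        Tape.mk' ∅ (TM2to1.addBottom L)⟩ : TM1.Cfg Sym L1 (Option PartrecToTM2.Γ'))).q
      = (default : TM1to0.Λ' M1) := by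
    show ((some (M1 (TM2to1.Λ'.normal (PartrecToTM2.trNormal c PartrecToTM2.Cont'.halt))),
      none) : TM1to0.Λ' M1) = (some (M1 (TM2to1.Λ'.normal default)), default)
    rw [hd]
    rfl
  have hrel : Rel (Tape.mk' ∅ (TM2to1.addBottom L)) 0 (FT v) := by
    intro x
    rw [sub_zero, nth_bottom L v hL]
  obtain ⟨hq', h', f', e1, e2, e3⟩ := sim_reach closed _ _ hr1 (by rw [hqq]; exact hq0) 0 (FT v)
    hrel
  have hh' : h' = 0 := by
    have e4 : f' h' = FT v' 0 := by
      rw [e2 h', sub_self]
      exact nth_bottom L' v' hL' 0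
    have e5 := e3 h'
    rw [e4] at e5
    have e6 : (FT v' 0).1 = true := by
      have := FT_nat v' 0
      simp only [Nat.cast_zero] at this
      rw [this]
      rfl
    rw [e6] at e5
    by_cases hn : h' < 0
    · rw [FT_neg v h' hn] at e5
      exact absurd e5.symm (by decide)
    · obtain ⟨n, rfl⟩ : ∃ n : ℕ, h' = (n : ℤ) := ⟨h'.toNat, by omega⟩
      rw [FT_nat v n] at e5
      have e7 : decide (n = 0) = true := e5.symm
      simp only [decide_eq_true_eq] at e7
      rw [e7]
      rfl
  subst hh'
  have hf' : f' = FT v' := by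
    funext x
    rw [e2 x, sub_zero]
    exact nth_bottom L' v' hL' x
  subst hf'
  refine ⟨⟨_, hq'⟩, ?_, ?_⟩
  · have e0 : ∀ (q : TM1to0.Λ' M1) (h : inQ S0 q), q = default →
        (⟨q, h⟩ : {q // inQ S0 q}) = ⟨default, hq0⟩ := by
      rintro q h rfl
      rfl
    rw [e0 _ _ hqq] at e1
    exact e1
  · apply M'_none
    rfl

end inst2

theorem exists_machine (c : ToPartrec.Code) :
    ∃ (Q : Type) (_ : Finite Q) (M : Q → Sym → Option (Q × TM0.Stmt Sym)) (q0 : Q),
      ∀ v v', v' ∈ c.eval v → ∃ q',
        ReflTransGen (fun a b => astep M a = some b) (q0, 0, FT v) (q', 0, FT v') ∧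
        M q' (FT v' 0) = none :=
  @exists_machine_aux ⟨PartrecToTM2.trNormal c PartrecToTM2.Cont'.halt⟩ c
    (PartrecToTM2.codeSupp c PartrecToTM2.Cont'.halt) rfl
    (PartrecToTM2.tr_supports c PartrecToTM2.Cont'.halt)

end part1

section part3

/-- tape letters of the main stack. -/
abbrev Gm : Type := PartrecToTM2.Γ'

theorem trNat_bit1 (n : ℕ) :
    PartrecToTM2.trNat (2 * n + 1) = PartrecToTM2.Γ'.bit1 :: PartrecToTM2.trNat n := by
  unfold PartrecToTM2.trNat
  rw [two_mul, Nat.cast_add, Nat.cast_add, Nat.cast_one, Num.bit1_of_bit1]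
  cases (n : Num) with
  | zero => rfl
  | pos p => rfl

theorem trNat_bit0 (n : ℕ) (hn : 0 < n) :
    PartrecToTM2.trNat (2 * n) = PartrecToTM2.Γ'.bit0 :: PartrecToTM2.trNat n := by
  unfold PartrecToTM2.trNat
  rw [two_mul, Nat.cast_add, Num.bit0_of_bit0]
  cases h : (n : Num) with
  | zero =>
    exfalso
    have h1 := Num.to_of_nat n
    rw [h] at h1
    have h2 : ((Num.zero : Num) : ℕ) = 0 := rfl
    omega
  | pos p => rfl

theorem trPosNum_last (p : PosNum) : ∃ l, PartrecToTM2.trPosNum p = l ++ [PartrecToTM2.Γ'.bit1] := by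
  induction p with
  | one => exact ⟨[], rfl⟩
  | bit1 p ih =>
    obtain ⟨l, hl⟩ := ih
    exact ⟨PartrecToTM2.Γ'.bit1 :: l, by simp [PartrecToTM2.trPosNum, hl]⟩
  | bit0 p ih =>
    obtain ⟨l, hl⟩ := ih
    exact ⟨PartrecToTM2.Γ'.bit0 :: l, by simp [PartrecToTM2.trPosNum, hl]⟩

theorem trNat_last (n : ℕ) :
    ∃ l, PartrecToTM2.trNat (n + 1) = l ++ [PartrecToTM2.Γ'.bit1] := by
  unfold PartrecToTM2.trNat
  cases h : ((n + 1 : ℕ) : Num) with
  | zero =>
    exfalso
    have h1 := Num.to_of_nat (n + 1)
    rw [h] at h1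
    have h2 : ((Num.zero : Num) : ℕ) = 0 := rfl
    omega
  | pos p => exact trPosNum_last p

theorem trPosNum_ne_cons (p : PosNum) : PartrecToTM2.Γ'.cons ∉ PartrecToTM2.trPosNum p := by
  induction p with
  | one => simp [PartrecToTM2.trPosNum]
  | bit1 p ih => simp [PartrecToTM2.trPosNum, ih]
  | bit0 p ih => simp [PartrecToTM2.trPosNum, ih]

theorem trNat_ne_cons (n : ℕ) : PartrecToTM2.Γ'.cons ∉ PartrecToTM2.trNat n := by
  unfold PartrecToTM2.trNat
  cases (n : Num) with
  | zero => simp [PartrecToTM2.trNum]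
  | pos p => exact trPosNum_ne_cons p

/-- decoding of digits. -/
def dec : List Gm → ℕ
  | [] => 0
  | PartrecToTM2.Γ'.bit1 :: l => 2 * dec l + 1
  | _ :: l => 2 * dec l

theorem dec_trNat (n : ℕ) : dec (PartrecToTM2.trNat n) = n := by
  induction n using Nat.strong_induction_on with
  | _ n ih =>
    rcases Nat.even_or_odd' n with ⟨k, hk | hk⟩
    · rcases Nat.eq_zero_or_pos k with h0 | h0
      · subst h0
        simp only [Nat.mul_zero] at hk
        subst hk
        rw [PartrecToTM2.trNat_zero]
        rfl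
      · rw [hk, trNat_bit0 k h0]
        show 2 * dec (PartrecToTM2.trNat k) = 2 * k
        rw [ih k (by omega)]
    · rw [hk, trNat_bit1 k]
      show 2 * dec (PartrecToTM2.trNat k) + 1 = 2 * k + 1
      rw [ih k (by omega)]

theorem trNat_inj {n m : ℕ} (h : PartrecToTM2.trNat n = PartrecToTM2.trNat m) : n = m := by
  rw [← dec_trNat n, ← dec_trNat m, h]

/-- symbol with one letter on the main track. -/
def dsym (b : Bool) (o : Option Gm) : Sym :=
  mkSym b (fun k => match k with
    | PartrecToTM2.K'.main => o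
    | _ => none)

theorem dsym_none : dsym false none = default := by
  refine Prod.ext rfl ?_
  funext k
  cases k <;> rfl

theorem dsym_inj {b b' : Bool} {o o' : Option Gm} (h : dsym b o = dsym b' o') : o = o' := by
  have h1 := congrArg Prod.snd h
  exact congrFun h1 PartrecToTM2.K'.main

theorem dsym_ne {b : Bool} {x : Gm} : dsym b (some x) ≠ default := by
  intro h
  have h1 := congrArg Prod.snd h
  have h2 := congrFun h1 PartrecToTM2.K'.main
  exact absurd (show some x = (none : Option Gm) from h2) (by simp)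

/-- separators. -/
def sep (s : Sym) : Prop := s.1 = false ∧ s.2 PartrecToTM2.K'.main = some PartrecToTM2.Γ'.cons

theorem sep_dsym {b : Bool} {o : Option Gm} :
    sep (dsym b o) ↔ b = false ∧ o = some PartrecToTM2.Γ'.cons := Iff.rfl

/-- the prefix word of the program `p`. -/
def W (p : ℕ) : List Gm :=
  PartrecToTM2.Γ'.cons :: ((PartrecToTM2.trNat p).reverse ++
    [PartrecToTM2.Γ'.bit1, PartrecToTM2.Γ'.cons])

theorem FT_eq (m p n : ℕ) : FT [m, 2 * p + 1] (n : ℤ) =
    dsym (decide (n = 0)) ((W p ++ (PartrecToTM2.trNat m).reverse)[n]?) := by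
  rw [FT_nat]
  refine Prod.ext rfl ?_
  funext k
  cases k with
  | main =>
    show (PartrecToTM2.trList [m, 2 * p + 1]).reverse[n]? = _
    have : (PartrecToTM2.trList [m, 2 * p + 1]).reverse =
        W p ++ (PartrecToTM2.trNat m).reverse := by
      simp only [PartrecToTM2.trList, trNat_bit1, W]
      simp
    rw [this]
    rfl
  | rev => rfl
  | aux => rfl
  | stack => rfl

theorem W_length (p : ℕ) : (W p).length = (PartrecToTM2.trNat p).length + 3 := by
  simp [W]

/-- the tape left of the input does not depend on the input. -/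
theorem FT_prefix (m m' p : ℕ) (x : ℤ) (hx : x < (W p).length) :
    FT [m, 2 * p + 1] x = FT [m', 2 * p + 1] x := by
  by_cases h : x < 0
  · rw [FT_neg _ _ h, FT_neg _ _ h]
  · obtain ⟨n, rfl⟩ : ∃ n : ℕ, x = (n : ℤ) := ⟨x.toNat, by omega⟩
    have hn : n < (W p).length := by exact_mod_cast hx
    rw [FT_eq, FT_eq, List.getElem?_append_left hn, List.getElem?_append_left hn]

theorem FT_input (m p n : ℕ) : FT [m, 2 * p + 1] ((n : ℤ) + (W p).length) =
    dsym false ((PartrecToTM2.trNat m).reverse[n]?) := by
  have h1 : ((n : ℤ) + (W p).length) = ((n + (W p).length : ℕ) : ℤ) := by push_cast; rfl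
  have h2 : 0 < (W p).length := by rw [W_length]; omega
  rw [h1, FT_eq, List.getElem?_append_right (by omega)]
  have h3 : decide (n + (W p).length = 0) = false := by
    rw [decide_eq_false_iff_not]
    omega
  rw [h3]
  congr 2
  omega

theorem FT_two (m p : ℕ) : FT [m, 2 * p + 1] (-2 + (W p).length) =
    dsym false (some PartrecToTM2.Γ'.bit1) := by
  have h0 := W_length p
  have h1 : (-2 + ((W p).length : ℤ)) = (((PartrecToTM2.trNat p).length + 1 : ℕ) : ℤ) := by
    rw [h0]; push_cast; ring
  rw [h1, FT_eq, List.getElem?_append_left (by omega)]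
  have h3 : decide ((PartrecToTM2.trNat p).length + 1 = 0) = false := by
    rw [decide_eq_false_iff_not]
    omega
  rw [h3, W, List.getElem?_cons_succ, List.getElem?_append_right (by simp)]
  simp

theorem FT_one (m p : ℕ) : FT [m, 2 * p + 1] (-1 + (W p).length) =
    dsym false (some PartrecToTM2.Γ'.cons) := by
  have h0 := W_length p
  have h1 : (-1 + ((W p).length : ℤ)) = (((PartrecToTM2.trNat p).length + 2 : ℕ) : ℤ) := by
    rw [h0]; push_cast; ring
  rw [h1, FT_eq, List.getElem?_append_left (by omega)]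
  have h3 : decide ((PartrecToTM2.trNat p).length + 2 = 0) = false := by
    rw [decide_eq_false_iff_not]
    omega
  rw [h3, W, List.getElem?_cons_succ, List.getElem?_append_right (by simp)]
  simp

theorem FT_not_sep (m p : ℕ) (x : ℤ) (hx : x ≤ -2 + (W p).length) :
    ¬ sep (FT [m, 2 * p + 1] x) := by
  by_cases h : x < 0
  · rw [FT_neg _ _ h, ← dsym_none, sep_dsym]
    simp
  · obtain ⟨n, rfl⟩ : ∃ n : ℕ, x = (n : ℤ) := ⟨x.toNat, by omega⟩
    have h0 := W_length p
    have hn : n ≤ (PartrecToTM2.trNat p).length + 1 := by omega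
    rw [FT_eq, sep_dsym, List.getElem?_append_left (by omega)]
    rintro ⟨h1, h2⟩
    cases n with
    | zero => simp at h1
    | succ n =>
      rw [W, List.getElem?_cons_succ] at h2
      rcases Nat.lt_or_ge n (PartrecToTM2.trNat p).length with h3 | h3
      · rw [List.getElem?_append_left (by simpa using h3)] at h2
        have h4 := List.mem_of_getElem? h2
        rw [List.mem_reverse] at h4
        exact trNat_ne_cons p h4
      · have h5 : n = (PartrecToTM2.trNat p).length := by omega
        rw [h5, List.getElem?_append_right (by simp)] at h2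
        simp at h2

end part3

section part4

/-- cell states: a tape symbol, and possibly a head (`inl q`: Turing machine in state `q`,
`inr false`: eraser, `inr true`: halted). -/
abbrev SS (Q : Type) : Type := Sym × Option (Q ⊕ Bool)

section ca

variable {Q : Type} (M : Q → Sym → Option (Q × TM0.Stmt Sym))

open Classical in
/-- the new state of a cell, ignoring arriving heads. -/
noncomputable def own (C R : SS Q) : SS Q :=
  match C.2 with
  | none => C
  | some (.inl q) =>
    match M q C.1 with
    | none => (C.1, some (.inr false))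
    | some (q', .write a) => (a, some (.inl q'))
    | some (_, .move _) => (C.1, none)
  | some (.inr false) =>
    if sep C.1 then (C.1, some (.inr true))
    else if sep R.1 then (C.1, none) else (default, none)
  | some (.inr true) => C

open Classical in
/-- head arriving from the left neighbour. -/
noncomputable def inL (L : SS Q) : Option (Q ⊕ Bool) :=
  match L.2 with
  | none => none
  | some (.inl q) =>
    match M q L.1 with
    | some (q', .move Dir.right) => some (.inl q')
    | _ => none
  | some (.inr false) => if sep L.1 then none else some (.inr false)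
  | some (.inr true) => none

/-- head arriving from the right neighbour. -/
def inR (R : SS Q) : Option (Q ⊕ Bool) :=
  match R.2 with
  | none => none
  | some (.inl q) =>
    match M q R.1 with
    | some (q', .move Dir.left) => some (.inl q')
    | _ => none
  | some (.inr _) => none

/-- merge. -/
def mrg {β : Type} (a b c : Option β) : Option β :=
  match a with
  | some x => some x
  | none => match b with
    | some y => some y
    | none => c

/-- the local rule. -/
noncomputable def stepF (L C R : SS Q) : SS Q :=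
  ((own M C R).1, mrg (inL M L) (inR M R) (own M C R).2)

/-- the global map. -/
noncomputable def GF (c : ℤ → SS Q) : ℤ → SS Q :=
  fun x => stepF M (c (x - 1)) (c x) (c (x + 1))

/-- a configuration with one head. -/
def conf (f : ℤ → Sym) (h : ℤ) (g : Q ⊕ Bool) : ℤ → SS Q :=
  fun x => (f x, if x = h then some g else none)

theorem conf_at (f : ℤ → Sym) (h : ℤ) (g : Q ⊕ Bool) : conf f h g h = (f h, some g) := by
  simp [conf]

theorem conf_ne (f : ℤ → Sym) (h : ℤ) (g : Q ⊕ Bool) (x : ℤ) (hx : x ≠ h) :
    conf f h g x = (f x, none) := by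
  simp [conf, hx]

theorem stepF_none (L C R : SS Q) (h1 : L.2 = none) (h2 : C.2 = none) (h3 : R.2 = none) :
    stepF M L C R = C := by
  obtain ⟨a, a'⟩ := L
  obtain ⟨b, b'⟩ := C
  obtain ⟨c, c'⟩ := R
  simp only at h1 h2 h3
  subst h1 h2 h3
  rfl

theorem GF_none (c : ℤ → SS Q) (hc : ∀ x, (c x).2 = none) : GF M c = c := by
  funext x
  exact stepF_none M _ _ _ (hc _) (hc _) (hc _)

/-- far from the head nothing happens. -/
theorem GF_far (f : ℤ → Sym) (h : ℤ) (g : Q ⊕ Bool) (x : ℤ) (h1 : x ≠ h) (h2 : x ≠ h + 1)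
    (h3 : x ≠ h - 1) : GF M (conf f h g) x = (f x, none) := by
  unfold GF
  rw [conf_ne f h g (x - 1) (by omega), conf_ne f h g x h1, conf_ne f h g (x + 1) (by omega)]
  rfl

theorem GF_head (f : ℤ → Sym) (h : ℤ) (g : Q ⊕ Bool) :
    GF M (conf f h g) h = own M (f h, some g) (f (h + 1), none) := by
  unfold GF
  rw [conf_ne f h g (h - 1) (by omega), conf_at, conf_ne f h g (h + 1) (by omega)]
  rfl

theorem GF_right (f : ℤ → Sym) (h : ℤ) (g : Q ⊕ Bool) :
    GF M (conf f h g) (h + 1) = (f (h + 1), inL M (f h, some g)) := by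
  unfold GF
  rw [show h + 1 - 1 = h by ring, conf_at, conf_ne f h g (h + 1) (by omega),
    conf_ne f h g (h + 1 + 1) (by omega)]
  unfold stepF
  show ((f (h + 1)), mrg (inL M (f h, some g)) none none) = _
  cases inL M (f h, some g) <;> rfl

theorem GF_left (f : ℤ → Sym) (h : ℤ) (g : Q ⊕ Bool) :
    GF M (conf f h g) (h - 1) = (f (h - 1), inR M (f h, some g)) := by
  unfold GF
  rw [show h - 1 + 1 = h by ring, conf_at, conf_ne f h g (h - 1) (by omega),
    conf_ne f h g (h - 1 - 1) (by omega)]
  unfold stepF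
  show ((f (h - 1)), mrg none (inR M (f h, some g)) none) = _
  cases inR M (f h, some g) <;> rfl

/-- a general form: the head stays. -/
theorem GF_stay (f f' : ℤ → Sym) (h : ℤ) (g g' : Q ⊕ Bool)
    (e1 : own M (f h, some g) (f (h + 1), none) = (f' h, some g'))
    (e2 : inL M (f h, some g) = none) (e3 : inR M (f h, some g) = none)
    (e4 : ∀ x, x ≠ h → f' x = f x) : GF M (conf f h g) = conf f' h g' := by
  funext x
  by_cases h1 : x = h
  · subst h1
    rw [GF_head, e1, conf_at]
  · by_cases h2 : x = h + 1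
    · subst h2
      rw [GF_right, e2, conf_ne f' h g' _ h1, e4 _ h1]
    · by_cases h3 : x = h - 1
      · subst h3
        rw [GF_left, e3, conf_ne f' h g' _ h1, e4 _ h1]
      · rw [GF_far M f h g x h1 h2 h3, conf_ne f' h g' _ h1, e4 _ h1]

theorem GF_goright (f f' : ℤ → Sym) (h : ℤ) (g g' : Q ⊕ Bool)
    (e1 : own M (f h, some g) (f (h + 1), none) = (f' h, none))
    (e2 : inL M (f h, some g) = some g') (e3 : inR M (f h, some g) = none)
    (e4 : ∀ x, x ≠ h → f' x = f x) : GF M (conf f h g) = conf f' (h + 1) g' := by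
  funext x
  by_cases h1 : x = h
  · subst h1
    rw [GF_head, e1, conf_ne f' (x + 1) g' x (by omega)]
  · by_cases h2 : x = h + 1
    · subst h2
      rw [GF_right, e2, conf_at, e4 _ h1]
    · by_cases h3 : x = h - 1
      · subst h3
        rw [GF_left, e3, conf_ne f' (h + 1) g' _ h2, e4 _ h1]
      · rw [GF_far M f h g x h1 h2 h3, conf_ne f' (h + 1) g' _ h2, e4 _ h1]

theorem GF_goleft (f f' : ℤ → Sym) (h : ℤ) (g g' : Q ⊕ Bool)
    (e1 : own M (f h, some g) (f (h + 1), none) = (f' h, none))
    (e2 : inL M (f h, some g) = none) (e3 : inR M (f h, some g) = some g')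
    (e4 : ∀ x, x ≠ h → f' x = f x) : GF M (conf f h g) = conf f' (h - 1) g' := by
  funext x
  by_cases h1 : x = h
  · subst h1
    rw [GF_head, e1, conf_ne f' (x - 1) g' x (by omega)]
  · by_cases h2 : x = h + 1
    · subst h2
      rw [GF_right, e2, conf_ne f' (h - 1) g' _ (by omega), e4 _ h1]
    · by_cases h3 : x = h - 1
      · subst h3
        rw [GF_left, e3, conf_at, e4 _ h1]
      · rw [GF_far M f h g x h1 h2 h3, conf_ne f' (h - 1) g' _ h3, e4 _ h1]

theorem G_tm_none (f : ℤ → Sym) (h : ℤ) (q : Q) (hM : M q (f h) = none) :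
    GF M (conf f h (.inl q)) = conf f h (.inr false) := by
  apply GF_stay M f f h
  · simp [own, hM]
  · simp [inL, hM]
  · simp [inR, hM]
  · intro x _; rfl

theorem G_tm_write (f : ℤ → Sym) (h : ℤ) (q q' : Q) (a : Sym)
    (hM : M q (f h) = some (q', TM0.Stmt.write a)) :
    GF M (conf f h (.inl q)) = conf (Function.update f h a) h (.inl q') := by
  apply GF_stay M f _ h
  · simp [own, hM]
  · simp [inL, hM]
  · simp [inR, hM]
  · intro x hx; exact Function.update_of_ne hx _ _

theorem G_tm_right (f : ℤ → Sym) (h : ℤ) (q q' : Q)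
    (hM : M q (f h) = some (q', TM0.Stmt.move Dir.right)) :
    GF M (conf f h (.inl q)) = conf f (h + 1) (.inl q') := by
  apply GF_goright M f _ h
  · simp [own, hM]
  · simp [inL, hM]
  · simp [inR, hM]
  · intro x hx; rfl

theorem G_tm_left (f : ℤ → Sym) (h : ℤ) (q q' : Q)
    (hM : M q (f h) = some (q', TM0.Stmt.move Dir.left)) :
    GF M (conf f h (.inl q)) = conf f (h - 1) (.inl q') := by
  apply GF_goleft M f _ h
  · simp [own, hM]
  · simp [inL, hM]
  · simp [inR, hM]
  · intro x hx; rfl

theorem G_er_sep (f : ℤ → Sym) (h : ℤ) (hs : sep (f h)) :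
    GF M (conf f h (.inr false)) = conf f h (.inr true) := by
  apply GF_stay M f f h
  · simp [own, hs]
  · simp [inL, hs]
  · simp [inR]
  · intro x _; rfl

theorem G_er_keep (f : ℤ → Sym) (h : ℤ) (hs : ¬ sep (f h)) (hs' : sep (f (h + 1))) :
    GF M (conf f h (.inr false)) = conf f (h + 1) (.inr false) := by
  apply GF_goright M f f h
  · simp [own, hs, hs']
  · simp [inL, hs]
  · simp [inR]
  · intro x _; rfl

theorem G_er_erase (f : ℤ → Sym) (h : ℤ) (hs : ¬ sep (f h)) (hs' : ¬ sep (f (h + 1))) :
    GF M (conf f h (.inr false)) = conf (Function.update f h default) (h + 1) (.inr false) := by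
  apply GF_goright M f _ h
  · simp [own, hs, hs']
  · simp [inL, hs]
  · simp [inR]
  · intro x hx; exact Function.update_of_ne hx _ _

theorem G_dn (f : ℤ → Sym) (h : ℤ) :
    GF M (conf f h (.inr true)) = conf f h (.inr true) := by
  apply GF_stay M f f h
  · simp [own]
  · simp [inL]
  · simp [inR]
  · intro x _; rfl

/-! ### runs -/

/-- no halted head. -/
def ND (c : ℤ → SS Q) : Prop := ∀ x, (c x).2 ≠ some (Sum.inr true)

/-- runs without a halted head, except possibly at the end. -/
def RT (c0 c1 : ℤ → SS Q) : Prop :=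
  ∃ k : ℕ, (GF M)^[k] c0 = c1 ∧ ∀ j < k, ND ((GF M)^[j] c0)

theorem RT.refl (c : ℤ → SS Q) : RT M c c := ⟨0, rfl, fun j hj => by omega⟩

theorem RT.head {c0 c1 c2 : ℤ → SS Q} (h0 : ND c0) (h1 : GF M c0 = c1) (h2 : RT M c1 c2) :
    RT M c0 c2 := by
  obtain ⟨k, e1, e2⟩ := h2
  refine ⟨k + 1, ?_, ?_⟩
  · rw [Function.iterate_succ_apply, h1, e1]
  · intro j hj
    cases j with
    | zero => exact h0
    | succ j =>
      rw [Function.iterate_succ_apply, h1]
      exact e2 j (by omega)

theorem RT.trans {c0 c1 c2 : ℤ → SS Q} (h1 : RT M c0 c1) (h2 : RT M c1 c2) : RT M c0 c2 := by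
  obtain ⟨k, e1, e2⟩ := h1
  obtain ⟨l, g1, g2⟩ := h2
  refine ⟨l + k, ?_, ?_⟩
  · rw [Function.iterate_add_apply, e1, g1]
  · intro j hj
    by_cases hjk : j < k
    · exact e2 j hjk
    · obtain ⟨i, rfl⟩ : ∃ i, j = i + k := ⟨j - k, by omega⟩
      rw [Function.iterate_add_apply, e1]
      exact g2 i (by omega)

theorem ND_conf (f : ℤ → Sym) (h : ℤ) (g : Q ⊕ Bool) (hg : g ≠ Sum.inr true) :
    ND (conf f h g) := by
  intro x
  by_cases hx : x = h
  · subst hx
    rw [conf_at]
    simpa using hg
  · rw [conf_ne f h g x hx]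
    simp

theorem run_tm (s : ℤ) {c c' : Q × ℤ × (ℤ → Sym)}
    (h : ReflTransGen (fun a b => astep M a = some b) c c') :
    RT M (conf (fun x => c.2.2 (x + s)) (c.2.1 - s) (.inl c.1))
      (conf (fun x => c'.2.2 (x + s)) (c'.2.1 - s) (.inl c'.1)) := by
  induction h using ReflTransGen.head_induction_on with
  | refl => exact RT.refl M _
  | @head a b h1 _ ih =>
    obtain ⟨q, h, f⟩ := a
    simp only [astep] at h1
    cases hM : M q (f h) with
    | none => rw [hM] at h1; simp at h1
    | some y =>
      rw [hM] at h1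
      obtain ⟨q', st⟩ := y
      have hM' : M q ((fun x => f (x + s)) (h - s)) = some (q', st) := by
        show M q (f (h - s + s)) = _
        rw [sub_add_cancel, hM]
      have hnd : ND (conf (fun x => f (x + s)) (h - s) (Sum.inl q : Q ⊕ Bool)) :=
        ND_conf _ _ _ (by simp)
      cases st with
      | move d =>
        cases d with
        | left =>
          simp only [Option.map_some, Option.some.injEq] at h1
          subst h1
          refine RT.head M hnd (G_tm_left M _ _ q q' hM') ?_
          simp only at ih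
          rw [show h - s - 1 = h - 1 - s by ring]
          exact ih
        | right =>
          simp only [Option.map_some, Option.some.injEq] at h1
          subst h1
          refine RT.head M hnd (G_tm_right M _ _ q q' hM') ?_
          simp only at ih
          rw [show h - s + 1 = h + 1 - s by ring]
          exact ih
      | write a =>
        simp only [Option.map_some, Option.some.injEq] at h1
        subst h1
        refine RT.head M hnd (G_tm_write M _ _ q q' a hM') ?_
        simp only at ih
        have : Function.update (fun x => f (x + s)) (h - s) a =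
            fun x => Function.update f h a (x + s) := by
          funext x
          by_cases hx : x = h - s
          · subst hx
            rw [Function.update_self, sub_add_cancel, Function.update_self]
          · rw [Function.update_of_ne hx, Function.update_of_ne (by omega)]
        rw [this]
        exact ih

theorem run_erase (n : ℕ) : ∀ (f : ℤ → Sym) (A B : ℤ), A + n = B →
    (∀ x, A ≤ x → x ≤ B → ¬ sep (f x)) → sep (f (B + 1)) →
    RT M (conf f A (.inr false : Q ⊕ Bool))
      (conf (fun x => if A ≤ x ∧ x < B then default else f x) (B + 1) (.inr false)) := by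
  induction n with
  | zero =>
    intro f A B hAB h1 h2
    have hAB' : A = B := by simpa using hAB
    subst hAB'
    have hf : (fun x => if A ≤ x ∧ x < A then (default : Sym) else f x) = f := by
      funext x
      rw [if_neg (by omega)]
    rw [hf]
    exact RT.head M (ND_conf _ _ _ (by simp)) (G_er_keep M f A (h1 A le_rfl le_rfl) h2)
      (RT.refl M _)
  | succ n ih =>
    intro f A B hAB h1 h2
    refine RT.head M (ND_conf _ _ _ (by simp)) (G_er_erase M f A (h1 A le_rfl (by omega))
      (h1 (A + 1) (by omega) (by omega))) ?_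
    have h3 := ih (Function.update f A default) (A + 1) B (by push_cast at hAB; omega)
      (by
        intro x hx1 hx2
        rw [Function.update_of_ne (by omega)]
        exact h1 x (by omega) hx2)
      (by
        rw [Function.update_of_ne (by omega)]
        exact h2)
    have hf : (fun x => if A + 1 ≤ x ∧ x < B then (default : Sym)
        else Function.update f A default x) =
        (fun x => if A ≤ x ∧ x < B then (default : Sym) else f x) := by
      funext x
      by_cases hx : x = A
      · subst hx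
        rw [if_neg (by omega), if_pos (by constructor <;> omega), Function.update_self]
      · rw [Function.update_of_ne hx]
        by_cases hx2 : A ≤ x ∧ x < B
        · rw [if_pos hx2, if_pos (by omega)]
        · rw [if_neg hx2, if_neg (by omega)]
    rw [hf] at h3
    exact h3

end ca

end part4

section part5

theorem universal_partrec : Partrec₂ (fun x y : ℕ =>
    (Nat.Partrec.Code.eval (Denumerable.ofNat Nat.Partrec.Code (y / 2)) (x - 1)).map Nat.succ) := by
  have h1 : Computable (fun p : ℕ × ℕ => Denumerable.ofNat Nat.Partrec.Code (p.2 / 2)) :=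
    (Primrec.ofNat Nat.Partrec.Code).to_comp.comp
      (Primrec.nat_div.comp Primrec.snd (Primrec.const 2)).to_comp
  have h2 : Computable (fun p : ℕ × ℕ => p.1 - 1) :=
    (Primrec.pred.comp Primrec.fst).to_comp
  have h3 : Partrec (fun p : ℕ × ℕ =>
      Nat.Partrec.Code.eval (Denumerable.ofNat Nat.Partrec.Code (p.2 / 2)) (p.1 - 1)) :=
    Nat.Partrec.Code.eval_part.comp h1 h2
  exact h3.map (Primrec.succ.comp Primrec.snd).to_comp

theorem exists_universal : ∃ c : ToPartrec.Code, ∀ ψ : ℕ →. ℕ, Nat.Partrec ψ →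
    ∃ p, ∀ n m, m ∈ ψ n → [m + 1, 2 * p + 1] ∈ c.eval [n + 1, 2 * p + 1] := by
  have h1 := Nat.Partrec'.part_iff₂.2 universal_partrec
  obtain ⟨c1, hc1⟩ := ToPartrec.Code.exists_code h1
  refine ⟨ToPartrec.Code.cons c1 ToPartrec.Code.tail, fun ψ hψ => ?_⟩
  obtain ⟨cd, hcd⟩ := Nat.Partrec.Code.exists_code.1 hψ
  refine ⟨Encodable.encode cd, fun n m hm => ?_⟩
  have h2 := hc1 ⟨[n + 1, 2 * Encodable.encode cd + 1], rfl⟩
  have h3 : (List.Vector.head (⟨[n + 1, 2 * Encodable.encode cd + 1], rfl⟩ : List.Vector ℕ 2))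
      = n + 1 := rfl
  have h4 : (List.Vector.head (List.Vector.tail
      (⟨[n + 1, 2 * Encodable.encode cd + 1], rfl⟩ : List.Vector ℕ 2)))
      = 2 * Encodable.encode cd + 1 := rfl
  simp only [h3, h4] at h2
  have h5 : (2 * Encodable.encode cd + 1) / 2 = Encodable.encode cd := by omega
  rw [h5, Denumerable.ofNat_encode, hcd, Nat.add_sub_cancel] at h2
  have h6 : [m + 1] ∈ c1.eval [n + 1, 2 * Encodable.encode cd + 1] := by
    rw [h2]
    exact Part.mem_map _ (Part.mem_map _ hm)
  rw [ToPartrec.Code.cons_eval]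
  simp only [ToPartrec.Code.tail_eval]
  refine Part.mem_bind_iff.2 ⟨[m + 1], h6, ?_⟩
  refine Part.mem_bind_iff.2 ⟨[2 * Encodable.encode cd + 1], ?_, ?_⟩
  · exact Part.mem_some _
  · exact Part.mem_some _

theorem digits_primrec : Primrec (fun n : ℕ => Nat.digits 2 n) := by
  have h : Primrec₂ (fun (_ : Unit) (n : ℕ) => Nat.digits 2 n) := by
    refine Primrec.nat_strong_rec (fun (_ : Unit) (n : ℕ) => Nat.digits 2 n)
      (g := fun _ IH => if IH.length = 0 then some [] else
        (IH[IH.length / 2]?).map (fun l => (IH.length % 2) :: l)) ?_ ?_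
    · have hl : Primrec (fun p : Unit × List (List ℕ) => p.2.length) :=
        Primrec.list_length.comp Primrec.snd
      refine Primrec.ite (Primrec.eq.comp hl (Primrec.const 0)) (Primrec.const (some [])) ?_
      refine Primrec.option_map (Primrec.list_getElem?.comp Primrec.snd
        (Primrec.nat_div.comp hl (Primrec.const 2))) ?_
      exact Primrec.list_cons.comp
        (Primrec.nat_mod.comp (hl.comp Primrec.fst) (Primrec.const 2)) Primrec.snd
    · intro _ n
      simp only [List.length_map, List.length_range]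
      rcases Nat.eq_zero_or_pos n with h0 | h0
      · subst h0
        simp
      · rw [if_neg (by omega), List.getElem?_map, List.getElem?_range (by omega)]
        simp only [Option.map_some]
        rw [Nat.digits_def' (by norm_num) h0]
  exact h.comp (Primrec.const ()) Primrec.id

/-- letters of digits. -/
def toG (k : ℕ) : Gm := if k = 0 then PartrecToTM2.Γ'.bit0 else PartrecToTM2.Γ'.bit1

theorem trNat_digits (n : ℕ) : PartrecToTM2.trNat n = (Nat.digits 2 n).map toG := by
  induction n using Nat.strong_induction_on with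
  | _ n ih =>
    rcases Nat.even_or_odd' n with ⟨k, hk | hk⟩
    · rcases Nat.eq_zero_or_pos k with h0 | h0
      · subst h0
        simp only [Nat.mul_zero] at hk
        subst hk
        simp
      · have h1 : n % 2 = 0 := by omega
        have h2 : n / 2 = k := by omega
        rw [Nat.digits_def' (by norm_num) (by omega : 0 < n), h1, h2, List.map_cons,
          ← ih k (by omega), hk, trNat_bit0 k h0]
        rfl
    · have h1 : n % 2 = 1 := by omega
      have h2 : n / 2 = k := by omega
      rw [Nat.digits_def' (by norm_num) (by omega : 0 < n), h1, h2, List.map_cons,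
        ← ih k (by omega), hk, trNat_bit1 k]
      rfl

theorem digits_len (n : ℕ) : (Nat.digits 2 n).length ≤ n := by
  induction n using Nat.strong_induction_on with
  | _ n ih =>
    rcases Nat.eq_zero_or_pos n with h0 | h0
    · subst h0; simp
    · rw [Nat.digits_def' (by norm_num) h0, List.length_cons]
      have := ih (n / 2) (by omega)
      omega

theorem trNat_len (n : ℕ) : (PartrecToTM2.trNat n).length ≤ n := by
  rw [trNat_digits, List.length_map]
  exact digits_len n

/-- computability of the letters of the input. -/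
theorem letters_computable (K : Option Gm → ℕ) :
    Computable₂ (fun n x : ℕ => K ((PartrecToTM2.trNat (n + 1)).reverse[x]?)) := by
  have h1 : Primrec₂ (fun n x : ℕ => (Nat.digits 2 (n + 1)).reverse[x]?) :=
    Primrec.list_getElem?.comp (Primrec.list_reverse.comp
      (digits_primrec.comp (Primrec.succ.comp Primrec.fst))) Primrec.snd
  have h2 : Primrec (fun k : ℕ => if k = 0 then K (some PartrecToTM2.Γ'.bit0)
      else K (some PartrecToTM2.Γ'.bit1)) :=
    Primrec.ite (Primrec.eq.comp Primrec.id (Primrec.const 0)) (Primrec.const _)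
      (Primrec.const _)
  have h3 : Primrec₂ (fun n x : ℕ => (((Nat.digits 2 (n + 1)).reverse[x]?).map
      (fun k : ℕ => if k = 0 then K (some PartrecToTM2.Γ'.bit0)
      else K (some PartrecToTM2.Γ'.bit1))).getD (K none)) :=
    Primrec.option_getD.comp (Primrec.option_map h1 (h2.comp Primrec.snd)) (Primrec.const _)
  have h4 : (fun n x : ℕ => K ((PartrecToTM2.trNat (n + 1)).reverse[x]?)) =
      (fun n x : ℕ => (((Nat.digits 2 (n + 1)).reverse[x]?).map
      (fun k : ℕ => if k = 0 then K (some PartrecToTM2.Γ'.bit0)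
      else K (some PartrecToTM2.Γ'.bit1))).getD (K none)) := by
    funext n x
    rw [trNat_digits, ← List.map_reverse, List.getElem?_map]
    cases (Nat.digits 2 (n + 1)).reverse[x]? with
    | none => rfl
    | some k =>
      simp only [Option.map_some, Option.getD_some, toG]
      split <;> rfl
  rw [h4]
  exact h3.to_comp

theorem two_cells_computable (a b : ℕ) :
    Computable₂ (fun n x : ℕ => if x = 0 ∨ x = 2 then a else b) := by
  have h : Primrec₂ (fun n x : ℕ => if x = 0 ∨ x = 2 then a else b) := by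
    refine Primrec.ite ?_ (Primrec.const a) (Primrec.const b)
    exact PrimrecPred.or (Primrec.eq.comp Primrec.snd (Primrec.const 0))
      (Primrec.eq.comp Primrec.snd (Primrec.const 2))
  exact h.to_comp

end part5

section part6

theorem finSym : Finite Sym := by
  have i1 : Fintype PartrecToTM2.K' :=
    ⟨{PartrecToTM2.K'.main, PartrecToTM2.K'.rev, PartrecToTM2.K'.aux, PartrecToTM2.K'.stack},
      by intro x; cases x <;> simp⟩
  exact @Finite.of_fintype _ TM2to1.Γ'.fintype

section final

variable {Q : Type} [Finite Q] (M : Q → Sym → Option (Q × TM0.Stmt Sym))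

/-- the quiescent state. -/
def nu (Q : Type) : SS Q := (default, none)

/-- the automaton. -/
noncomputable def MA : CA where
  S := SS Q
  finS := by
    have := finSym
    infer_instance
  ν := nu Q
  N := {-1, 0, 1}
  rule := fun g => stepF M (g ⟨-1, by simp⟩) (g ⟨0, by simp⟩) (g ⟨1, by simp⟩)
  quiet := stepF_none M _ _ _ rfl rfl rfl

theorem G_eq (c : ℤ → SS Q) : (MA M).G c = GF M c := by
  funext x
  show stepF M (c (x + -1)) (c (x + 0)) (c (x + 1)) = stepF M (c (x - 1)) (c x) (c (x + 1))
  rw [add_zero, sub_eq_add_neg]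

theorem Git_eq (t : ℕ) (c : ℤ → SS Q) : (MA M).G^[t] c = (GF M)^[t] c := by
  have h : (MA M).G = GF M := funext fun c => G_eq M c
  exact congrFun (congrArg (fun F : (ℤ → SS Q) → (ℤ → SS Q) => F^[t]) h) c

/-- inputs. -/
def iF (Q : Type) (n : ℕ) : ℤ → SS Q := fun x =>
  (if x = -2 then dsym false (some PartrecToTM2.Γ'.bit1)
    else if 0 ≤ x then dsym false ((PartrecToTM2.trNat (n + 1)).reverse[x.toNat]?)
    else default, none)

theorem iF_head (n : ℕ) (x : ℤ) : (iF Q n x).2 = none := rfl

theorem iF_two (n : ℕ) : iF Q n (-2) = (dsym false (some PartrecToTM2.Γ'.bit1), none) := by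
  simp [iF]

theorem iF_nat (n : ℕ) (x : ℤ) (hx : 0 ≤ x) :
    iF Q n x = (dsym false ((PartrecToTM2.trNat (n + 1)).reverse[x.toNat]?), none) := by
  have h1 : x ≠ -2 := by omega
  simp [iF, h1, hx]

theorem iF_other (n : ℕ) (x : ℤ) (h1 : x ≠ -2) (h2 : ¬ 0 ≤ x) : iF Q n x = nu Q := by
  simp only [iF, if_neg h1, if_neg h2]
  rfl

theorem nu_ne {b : Bool} {x : Gm} {o : Option (Q ⊕ Bool)} :
    ((dsym b (some x), o) : SS Q) ≠ nu Q := by
  intro h
  exact dsym_ne (congrArg Prod.fst h)

theorem iF_ne_iff (n : ℕ) (x : ℤ) : iF Q n x ≠ nu Q ↔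
    x = -2 ∨ (0 ≤ x ∧ x.toNat < (PartrecToTM2.trNat (n + 1)).length) := by
  by_cases h1 : x = -2
  · subst h1
    rw [iF_two]
    simp only [true_or, iff_true]
    exact nu_ne
  · by_cases h2 : 0 ≤ x
    · rw [iF_nat n x h2]
      simp only [h1, h2, true_and, false_or]
      constructor
      · intro h
        by_contra hc
        apply h
        rw [List.getElem?_eq_none (by rw [List.length_reverse]; omega), dsym_none]
        rfl
      · intro h
        rw [List.getElem?_eq_getElem (by rw [List.length_reverse]; exact h)]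
        exact nu_ne
    · rw [iF_other n x h1 h2]
      simp [h1, h2]

theorem len_pos (n : ℕ) : 0 < (PartrecToTM2.trNat (n + 1)).length := by
  obtain ⟨l, hl⟩ := trNat_last n
  rw [hl]
  simp

theorem trNat_one : PartrecToTM2.trNat 1 = [PartrecToTM2.Γ'.bit1] := by
  have := trNat_bit1 0
  simpa using this

theorem trNat_two : PartrecToTM2.trNat 2 = [PartrecToTM2.Γ'.bit0, PartrecToTM2.Γ'.bit1] := by
  have := trNat_bit0 1 (by norm_num)
  rw [trNat_one] at this
  simpa using this

theorem iF_inj : Function.Injective (iF Q) := by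
  intro n m h
  have h1 : (PartrecToTM2.trNat (n + 1)).reverse = (PartrecToTM2.trNat (m + 1)).reverse := by
    apply List.ext_getElem?
    intro i
    have h2 := congrFun h (i : ℤ)
    rw [iF_nat n _ (by omega), iF_nat m _ (by omega)] at h2
    have h3 := dsym_inj (congrArg Prod.fst h2)
    simpa using h3
  have h2 := trNat_inj (List.reverse_injective h1)
  omega

theorem cpassive_of_heads (c : ℤ → SS Q) (hc : ∀ x, (c x).2 = none) :
    (MA M).CPassive c := by
  intro c' hs
  refine (G_eq M c').trans (GF_none M c' ?_)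
  intro x
  by_cases hx : c' x = nu Q
  · rw [hx]; rfl
  · have := hs x hx
    rw [← this]
    exact hc x

/-- the set `T`. -/
def TT : Set (ℤ → SS Q) :=
  {f | ∃ (n : ℕ) (τ : ℤ), f = (fun x => iF Q n (x - τ)) ∧ f (-1) = nu Q}

theorem TT_head {f : ℤ → SS Q} (hf : f ∈ (TT : Set (ℤ → SS Q))) (x : ℤ) : (f x).2 = none := by
  obtain ⟨n, τ, rfl, _⟩ := hf
  rfl

theorem iF_mem (n : ℕ) : iF Q n ∈ (TT : Set (ℤ → SS Q)) := by
  refine ⟨n, 0, ?_, iF_other n (-1) (by norm_num) (by norm_num)⟩
  funext x
  rw [sub_zero]

theorem iF_recursive : RecursiveFamily (MA M) (iF Q) := by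
  have := finSym
  obtain ⟨k, ⟨e⟩⟩ := Finite.exists_equiv_fin (SS Q)
  let code : SS Q → ℕ := fun s => (e s).val
  refine ⟨code, fun a b h => e.injective (Fin.ext h), ?_, ?_, fun n => n + 3, ?_, ?_⟩
  · have h1 := letters_computable (fun o => code (dsym false o, none))
    have h2 : (fun n x : ℕ => code (iF Q n (x : ℤ))) =
        (fun n x : ℕ => code (dsym false ((PartrecToTM2.trNat (n + 1)).reverse[x]?), none)) := by
      funext n x
      rw [iF_nat n _ (by omega), Int.toNat_natCast]
    rw [h2]
    exact h1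
  · have h1 := two_cells_computable (code (dsym false (some PartrecToTM2.Γ'.bit1), none))
      (code (nu Q))
    have h2 : (fun n x : ℕ => code (iF Q n (-(x : ℤ)))) =
        (fun n x : ℕ => if x = 0 ∨ x = 2 then
          code (dsym false (some PartrecToTM2.Γ'.bit1), none) else code (nu Q)) := by
      funext n x
      by_cases h0 : x = 0
      · subst h0
        obtain ⟨l, hl⟩ := trNat_last n
        simp only [true_or, if_true, Nat.cast_zero, neg_zero]
        rw [iF_nat n 0 le_rfl, hl]
        simp
      · by_cases h2 : x = 2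
        · subst h2
          simp only [or_true, if_true]
          rw [show (-((2 : ℕ) : ℤ)) = -2 by norm_num, iF_two]
        · rw [if_neg (by omega), iF_other n _ (by omega) (by omega)]
    rw [h2]
    exact h1
  · exact (Primrec.nat_add.comp Primrec.id (Primrec.const 3)).to_comp
  · intro n x hx
    have h1 := (iF_ne_iff (Q := Q) n x).1 hx
    have h2 := trNat_len (n + 1)
    show x.natAbs ≤ n + 3
    rcases h1 with h1 | h1 <;> omega

theorem TT_finite (f : ℤ → SS Q) (hf : f ∈ (TT : Set (ℤ → SS Q))) :
    ((MA M).Supp f).Finite := by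
  obtain ⟨n, τ, rfl, _⟩ := hf
  apply (Set.finite_Icc (τ - 2) (τ + (n + 2))).subset
  intro x hx
  have h1 := (iF_ne_iff (Q := Q) n (x - τ)).1 hx
  have h2 := trNat_len (n + 1)
  rw [Set.mem_Icc]
  rcases h1 with h1 | h1 <;> constructor <;> omega

/-- the Turing domain. -/
noncomputable def TD : TuringDomain (MA M) where
  T := TT
  finite := TT_finite M
  ι := iF Q
  mem := iF_mem
  inj := iF_inj
  recursive := iF_recursive M
  passive := fun f hf => cpassive_of_heads M f (TT_head hf)
  unions := by
    intro k f τ hf _ u hu hu'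
    apply cpassive_of_heads M u
    intro x
    by_cases h : ∀ i, (MA M).translate (τ i) (f i) x = nu Q
    · have h1 : u x = nu Q := hu' x h
      rw [h1]
      rfl
    · push Not at h
      obtain ⟨i, hi⟩ := h
      have h1 : u x = (MA M).translate (τ i) (f i) x := hu i x hi
      rw [h1]
      exact TT_head (hf i) _

theorem U_iff (x : ℤ) : x ∈ (TD M).U ↔ x ≠ -1 := by
  constructor
  · rintro ⟨f, ⟨n, τ, hf, h1⟩, h2⟩ rfl
    exact h2 h1
  · intro hx
    by_cases h1 : x = 1
    · subst h1
      refine ⟨iF Q 1, iF_mem 1, ?_⟩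
      show iF Q 1 1 ≠ nu Q
      rw [iF_ne_iff, trNat_two]
      right
      constructor
      · norm_num
      · simp
    · refine ⟨fun y => iF Q 0 (y - x), ⟨0, x, rfl, ?_⟩, ?_⟩
      · show iF Q 0 (-1 - x) = nu Q
        by_contra hc
        rw [← ne_eq, iF_ne_iff, trNat_one] at hc
        rcases hc with hc | ⟨hc, hc'⟩
        · omega
        · simp at hc'
          omega
      · show iF Q 0 (x - x) ≠ nu Q
        rw [sub_self, iF_ne_iff]
        right
        exact ⟨le_rfl, len_pos 0⟩

theorem forced (d : ℤ → SS Q) (hd : d ∈ (TD M).T) (τ : ℤ)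
    (h1 : (MA M).translate τ d ∉ (TD M).T)
    (h2 : ∀ n, (MA M).Disj ((MA M).translate τ d) ((TD M).ι n)) :
    (MA M).translate τ d = fun x => iF Q 0 (x + 1) := by
  obtain ⟨m, σ, rfl, _⟩ := hd
  have e1 : (MA M).translate τ (fun x => iF Q m (x - σ)) = fun x => iF Q m (x - (σ + τ)) := by
    funext x
    show iF Q m (x - τ - σ) = _
    congr 1
    ring
  rw [e1] at h1 h2 ⊢
  set s := σ + τ with hs
  have h3 : iF Q m (-1 - s) ≠ nu Q := by
    intro h
    exact h1 ⟨m, s, rfl, h⟩
  have h4 : ∀ n x, iF Q m (x - s) = nu Q ∨ iF Q n x = nu Q := fun n x =>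
    (disj_iff _ _).1 (h2 n) x
  have hlen := len_pos m
  rw [iF_ne_iff] at h3
  have hneg : ∀ n x, (x - s = -2 ∨ (0 ≤ x - s ∧
      (x - s).toNat < (PartrecToTM2.trNat (m + 1)).length)) →
      (x = -2 ∨ (0 ≤ x ∧ x.toNat < (PartrecToTM2.trNat (n + 1)).length)) → False := by
    intro n x hx1 hx2
    rcases h4 n x with h5 | h5
    · exact (iF_ne_iff m _).2 hx1 h5
    · exact (iF_ne_iff n _).2 hx2 h5
  have hs1 : s = -1 := by
    by_contra hne
    rcases h3 with h3 | ⟨h3, h3'⟩
    · have : s = 1 := by omega
      refine hneg 1 1 (Or.inr ⟨by omega, by omega⟩) (Or.inr ⟨by norm_num, ?_⟩)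
      rw [trNat_two]
      simp
    · exact hneg 0 (-2) (Or.inr ⟨by omega, by omega⟩) (Or.inl rfl)
  have hlen1 : (PartrecToTM2.trNat (m + 1)).length = 1 := by
    by_contra hne
    exact hneg 0 0 (Or.inr ⟨by omega, by omega⟩) (Or.inr ⟨le_rfl, len_pos 0⟩)
  have hm : m = 0 := by
    obtain ⟨l, hl⟩ := trNat_last m
    rw [hl] at hlen1
    simp at hlen1
    subst hlen1
    have := trNat_inj (hl.trans trNat_one.symm)
    omega
  funext x
  rw [hm, hs1]
  congr 1

theorem TD_no_universal (c : (MA M).Cfg) : ¬ UniversalComputer (TD M) c :=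
  no_universal (TD M) (fun x => iF Q 0 (x + 1)) (forced M) (-1)
    (fun x hx => (U_iff M x).2 hx) c

/-- the computer with program `p`. -/
def cP (q0 : Q) (p : ℕ) : ℤ → SS Q := fun x =>
  if x = -2 ∨ 0 ≤ x then nu Q
  else (FT [0, 2 * p + 1] (x + (W p).length), if x = -((W p).length : ℤ) then some (.inl q0)
    else none)

theorem cP_outside (q0 : Q) (p : ℕ) (x : ℤ) (hx : x = -2 ∨ 0 ≤ x) : cP q0 p x = nu Q := by
  rw [cP, if_pos hx]

theorem cP_inside (q0 : Q) (p : ℕ) (x : ℤ) (hx : ¬ (x = -2 ∨ 0 ≤ x)) :
    cP q0 p x = (FT [0, 2 * p + 1] (x + (W p).length),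
      if x = -((W p).length : ℤ) then some (.inl q0) else none) := by
  rw [cP, if_neg hx]

theorem cP_join (q0 : Q) (p n : ℕ) : (MA M).join (cP q0 p) (iF Q n) =
    conf (fun x => FT [n + 1, 2 * p + 1] (x + (W p).length)) (-((W p).length : ℤ))
      (.inl q0) := by
  classical
  have hW := W_length p
  funext x
  by_cases hx : x = -2 ∨ 0 ≤ x
  · refine (show (MA M).join (cP q0 p) (iF Q n) x = iF Q n x from
      if_pos (cP_outside q0 p x hx)).trans ?_
    rw [conf_ne _ _ _ x (by omega)]
    rcases hx with hx | hx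
    · subst hx
      rw [iF_two, FT_two]
    · obtain ⟨k, rfl⟩ : ∃ k : ℕ, x = (k : ℤ) := ⟨x.toNat, by omega⟩
      rw [iF_nat n _ hx, FT_input, Int.toNat_natCast]
  · have h1 : cP q0 p x = conf (fun x => FT [n + 1, 2 * p + 1] (x + (W p).length))
        (-((W p).length : ℤ)) (.inl q0) x := by
      rw [cP_inside q0 p x hx, FT_prefix 0 (n + 1) p _ (by omega)]
      rfl
    by_cases h2 : cP q0 p x = nu Q
    · refine (show (MA M).join (cP q0 p) (iF Q n) x = iF Q n x from if_pos h2).trans ?_
      rw [← h1, h2]
      exact iF_other n x (by omega) (by omega)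
    · refine (show (MA M).join (cP q0 p) (iF Q n) x = cP q0 p x from if_neg h2).trans ?_
      rw [h1]

theorem cP_finite (q0 : Q) (p : ℕ) : ((MA M).Supp (cP q0 p)).Finite := by
  apply (Set.finite_Icc (-((W p).length : ℤ)) 0).subset
  intro x hx
  rw [Set.mem_Icc]
  by_contra hc
  apply hx
  show cP q0 p x = nu Q
  have hW := W_length p
  by_cases h0 : x = -2 ∨ 0 ≤ x
  · exact cP_outside q0 p x h0
  · rw [cP_inside q0 p x h0, FT_neg _ _ (by omega), if_neg (by omega)]
    rfl

theorem join_restrict (A : CA) (U : Set ℤ) (e : A.Cfg) :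
    A.join (A.restrict Uᶜ e) (A.restrict U e) = e := by
  classical
  funext x
  unfold CA.join CA.restrict
  by_cases h : x ∈ U
  · simp [h]
  · simp only [Set.mem_compl_iff, h, not_false_eq_true, if_true, if_false]
    split
    · rename_i h1; exact h1.symm
    · rfl

theorem iter_fixed {β : Type} (F : β → β) (b : β) (h : F b = b) (t : ℕ) : F^[t] b = b := by
  induction t with
  | zero => rfl
  | succ t ih => rw [Function.iterate_succ_apply, h, ih]

theorem cP_computes (q0 : Q) (p : ℕ) (ψ : ℕ →. ℕ)
    (hrun : ∀ n m, m ∈ ψ n → ∃ q', ReflTransGen (fun a b => astep M a = some b)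
      (q0, 0, FT [n + 1, 2 * p + 1]) (q', 0, FT [m + 1, 2 * p + 1]) ∧
      M q' (FT [m + 1, 2 * p + 1] 0) = none) : Computes (TD M) (cP q0 p) ψ := by
  classical
  have hW := W_length p
  have hcm1 : cP q0 p (-1) = (dsym false (some PartrecToTM2.Γ'.cons), none) := by
    rw [cP_inside q0 p (-1) (by omega), FT_one, if_neg (by omega)]
  refine ⟨?_, ?_, -1, ?_, (dsym false (some PartrecToTM2.Γ'.cons), some (.inr true)), ?_, ?_⟩
  · intro h
    have h1 := TT_head h (-((W p).length : ℤ))
    rw [cP_inside q0 p _ (by omega), if_pos rfl] at h1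
    simp at h1
  · intro n _
    refine (disj_iff _ _).2 fun x => ?_
    by_cases hx : x = -2 ∨ 0 ≤ x
    · exact Or.inl (cP_outside q0 p x hx)
    · exact Or.inr (iF_other n x (by omega) (by omega))
  · show cP q0 p (-1) ≠ nu Q
    rw [hcm1]
    exact nu_ne
  · exact nu_ne
  · intro n m hm
    obtain ⟨q', r1, r2⟩ := hrun n m hm
    have s1 := run_tm M ((W p).length : ℤ) r1
    simp only [zero_sub] at s1
    set f1 : ℤ → Sym := fun x => FT [m + 1, 2 * p + 1] (x + (W p).length) with hf1
    have s2 : GF M (conf f1 (-((W p).length : ℤ)) (.inl q')) =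
        conf f1 (-((W p).length : ℤ)) (.inr false) := by
      apply G_tm_none
      show M q' (FT [m + 1, 2 * p + 1] (-((W p).length : ℤ) + (W p).length)) = none
      rw [neg_add_cancel]
      exact r2
    have s3 := run_erase M ((W p).length - 2) f1 (-((W p).length : ℤ)) (-2) (by omega)
      (by
        intro x hx1 hx2
        exact FT_not_sep (m + 1) p _ (by omega))
      (by
        show sep (FT [m + 1, 2 * p + 1] (-2 + 1 + (W p).length))
        rw [show (-2 + 1 + ((W p).length : ℤ)) = -1 + (W p).length by ring, FT_one]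
        exact ⟨rfl, rfl⟩)
    rw [show (-2 + 1 : ℤ) = -1 by norm_num] at s3
    set f2 : ℤ → Sym := fun x => if -((W p).length : ℤ) ≤ x ∧ x < -2 then default else f1 x
      with hf2
    have hf2m1 : f2 (-1) = dsym false (some PartrecToTM2.Γ'.cons) := by
      rw [hf2]
      simp only
      rw [if_neg (by omega), hf1]
      exact FT_one (m + 1) p
    have s4 : GF M (conf f2 (-1) (.inr false)) = conf f2 (-1) (.inr true) := by
      apply G_er_sep
      rw [hf2m1]
      exact ⟨rfl, rfl⟩
    have s5 : RT M (conf (fun x => FT [n + 1, 2 * p + 1] (x + (W p).length))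
        (-((W p).length : ℤ)) (.inl q0)) (conf f2 (-1) (.inr true)) := by
      refine RT.trans M s1 ?_
      refine RT.head M (ND_conf _ _ _ (by simp)) s2 ?_
      refine RT.trans M s3 ?_
      exact RT.head M (ND_conf _ _ _ (by simp)) s4 (RT.refl M _)
    obtain ⟨t, t1, t2⟩ := s5
    have hj : (MA M).join (cP q0 p) ((TD M).ι n) =
        conf (fun x => FT [n + 1, 2 * p + 1] (x + (W p).length)) (-((W p).length : ℤ))
        (.inl q0) := cP_join M q0 p n
    have hE : (MA M).G^[t] ((MA M).join (cP q0 p) ((TD M).ι n)) = conf f2 (-1) (.inr true) := by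
      rw [hj, Git_eq, t1]
    have hres : (MA M).restrict (TD M).U (conf f2 (-1) (.inr true)) = iF Q m := by
      funext x
      show (if x ∈ (TD M).U then conf f2 (-1) (.inr true) x else nu Q) = iF Q m x
      by_cases hx : x = -1
      · rw [if_neg (by rw [U_iff]; simp [hx]), hx]
        exact (iF_other m (-1) (by norm_num) (by norm_num)).symm
      · rw [if_pos ((U_iff M x).2 hx), conf_ne _ _ _ x hx, hf2]
        simp only
        by_cases hx2 : x = -2
        · subst hx2
          rw [if_neg (by omega), hf1, iF_two]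
          simp only
          rw [FT_two]
        · by_cases hx0 : 0 ≤ x
          · rw [if_neg (by omega), hf1, iF_nat m x hx0]
            simp only
            obtain ⟨k, rfl⟩ : ∃ k : ℕ, x = (k : ℤ) := ⟨x.toNat, by omega⟩
            rw [FT_input, Int.toNat_natCast]
          · rw [iF_other m x hx2 hx0]
            by_cases hx3 : -((W p).length : ℤ) ≤ x
            · rw [if_pos ⟨hx3, by omega⟩]
              rfl
            · rw [if_neg (by omega), hf1]
              simp only
              rw [FT_neg _ _ (by omega)]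
              rfl
    refine ⟨t, ?_, ?_, ?_, ?_⟩
    · rw [hE]
      show conf f2 (-1) (.inr true) (-1) = _
      rw [conf_at, hf2m1]
    · intro t' ht' h
      rw [hj, Git_eq] at h
      have h1 := t2 t' ht' (-1)
      rw [h] at h1
      exact h1 rfl
    · rw [hE, hres]
      rintro ⟨r, x, hx, hne⟩
      apply hne
      have hp1 : (MA M).G^[r] (iF Q m) = iF Q m := by
        rw [Git_eq]
        exact iter_fixed _ _ (GF_none M _ (iF_head m)) r
      have hp2 : (MA M).join ((MA M).restrict (TD M).Uᶜ (conf f2 (-1) (.inr true)))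
          (iF Q m) = conf f2 (-1) (.inr true) := by
        rw [← hres]
        exact join_restrict (MA M) (TD M).U (conf f2 (-1) (.inr true))
      have hp3 : (MA M).G^[r] (conf f2 (-1) (.inr true)) = conf f2 (-1) (.inr true) := by
        rw [Git_eq]
        exact iter_fixed _ _ (G_dn M _ _) r
      rw [hp1] at hx
      rw [hp2, hp3, hp1]
      have hx1 : x ≠ -1 := by
        rintro rfl
        exact hx (iF_other m (-1) (by norm_num) (by norm_num))
      have h6 := congrFun hres x
      have h7 : (MA M).restrict (TD M).U (conf f2 (-1) (.inr true)) x =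
          conf f2 (-1) (.inr true) x := if_pos ((U_iff M x).2 hx1)
      rw [h7] at h6
      exact h6
    · rw [hE]
      exact hres

end final

end part6

/-- There are a cellular automaton and a Turing domain for which the automaton is
computation-universal (even with finite computers), but which has no universal computer. -/
theorem result : ∃ (A : CA) (D : TuringDomain A),
    CompUniversal D ∧
    (∀ ψ : ℕ →. ℕ, Nat.Partrec ψ → ∃ c : A.Cfg, (A.Supp c).Finite ∧ Computes D c ψ) ∧
    ∀ c : A.Cfg, ¬ UniversalComputer D c := by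
  obtain ⟨cU, hU⟩ := exists_universal
  obtain ⟨Q, hQ, M, q0, hM⟩ := exists_machine cU
  have h1 : ∀ ψ : ℕ →. ℕ, Nat.Partrec ψ →
      ∃ c : (MA M).Cfg, ((MA M).Supp c).Finite ∧ Computes (TD M) c ψ := by
    intro ψ hψ
    obtain ⟨p, hp⟩ := hU ψ hψ
    exact ⟨cP q0 p, cP_finite M q0 p, cP_computes M q0 p ψ fun n m hm => hM _ _ (hp n m hm)⟩
  refine ⟨MA M, TD M, fun ψ hψ => ?_, h1, TD_no_universal M⟩
  obtain ⟨c, _, hc⟩ := h1 ψ hψ
  exact ⟨c, hc⟩

end Pool.Agent.Results.MP_8a6a08_lc.NoUniversal
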